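import Pool.Agent.Helper20.Mono.GoalsG

/-! # Packet G1: the Laplace transform of the orthant through a simplicial fan -/

namespace Mono

open Finset

variable {n : ℕ}

theorem idx_empty' : idx (((∅ : Finset (Fin n → ℤ)) : Set (Fin n → ℤ))) = 1 := by
  have h1 : sat (((∅ : Finset (Fin n → ℤ)) : Set (Fin n → ℤ))) = ⊥ := by
    rw [eq_bot_iff]
    rintro x ⟨k, hk, hx⟩
    simp only [Finset.coe_empty, AddSubgroup.closure_empty, AddSubgroup.mem_bot] at hx
    rw [AddSubgroup.mem_bot]
    rcases smul_eq_zero.1 hx with h | h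
    · exact absurd h hk
    · exact h
  unfold idx
  rw [h1]
  simp

theorem Fan.faces_empty (T : Fan n) : (∅ : Finset (Fin n → ℤ)) ∈ T.faces := by
  rw [Fan.mem_faces]
  obtain ⟨F, hF, -⟩ := T.cover 0 (fun i => le_refl _)
  exact ⟨F, hF, Finset.empty_subset _⟩

theorem mem_mxT_h97 (T : Fan n) (R : Finset (Fin n)) (τ : Finset (Fin n → ℤ)) :
    τ ∈ T.mxT R ↔ T.IsFace τ ∧ τ.card = R.card ∧ ∀ u ∈ τ, ∀ i, i ∉ R → u i = 0 := by
  unfold Fan.mxT
  rw [Finset.mem_filter, Fan.mem_faces]

/-- A linear form which is one on `u` and zero on `ρ`. -/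
theorem exists_form {ρ : Finset (Fin n → ℤ)} {u : Fin n → ℤ} (hu : u ∉ ρ)
    (h : Indep (insert u ρ)) :
    ∃ k : Fin n → ℝ, k ⬝ᵥ toR u = 1 ∧ ∀ v ∈ ρ, k ⬝ᵥ toR v = 0 := by
  classical
  have h2 : toR u ∉ Submodule.span ℝ (toR '' (ρ : Set (Fin n → ℤ))) := by
    intro hmem
    rw [Submodule.mem_span_image_finset_iff_exists_fun] at hmem
    obtain ⟨c, hc⟩ := hmem
    have hsum : ∑ v ∈ insert u ρ, (if v = u then (-1 : ℝ) else
        if hv : v ∈ ρ then c ⟨v, hv⟩ else 0) • toR v = 0 := by
      rw [Finset.sum_insert hu]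
      have : ∑ v ∈ ρ, (if v = u then (-1 : ℝ) else
          if hv : v ∈ ρ then c ⟨v, hv⟩ else 0) • toR v = toR u := by
        rw [← hc, ← Finset.sum_coe_sort ρ]
        refine Finset.sum_congr rfl fun v _ => ?_
        have : (v : Fin n → ℤ) ≠ u := fun e => hu (e ▸ v.2)
        simp [this]
      rw [this]
      simp
    have := h.sum_eq_zero hsum u (Finset.mem_insert_self _ _)
    simp at this
  obtain ⟨f, hf1, hf2⟩ := Submodule.exists_le_ker_of_notMem h2
  refine ⟨fun j => (f (toR u))⁻¹ * f (Pi.single j 1), ?_, ?_⟩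
  · have : ∀ x : Fin n → ℝ, (fun j => (f (toR u))⁻¹ * f (Pi.single j 1)) ⬝ᵥ x
        = (f (toR u))⁻¹ * f x := by
      intro x
      have hx : x = ∑ j, x j • (Pi.single j (1:ℝ) : Fin n → ℝ) := by
        funext l
        simp [Finset.sum_apply, Pi.single_apply]
      conv_rhs => rw [hx, map_sum]
      simp only [dotProduct, map_smul, smul_eq_mul, Finset.mul_sum]
      refine Finset.sum_congr rfl fun j _ => by ring
    rw [this]
    exact inv_mul_cancel₀ hf1
  · intro v hv
    have : ∀ x : Fin n → ℝ, (fun j => (f (toR u))⁻¹ * f (Pi.single j 1)) ⬝ᵥ x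
        = (f (toR u))⁻¹ * f x := by
      intro x
      have hx : x = ∑ j, x j • (Pi.single j (1:ℝ) : Fin n → ℝ) := by
        funext l
        simp [Finset.sum_apply, Pi.single_apply]
      conv_rhs => rw [hx, map_sum]
      simp only [dotProduct, map_smul, smul_eq_mul, Finset.mul_sum]
      refine Finset.sum_congr rfl fun j _ => by ring
    rw [this]
    have : f (toR v) = 0 := by
      have := hf2 (Submodule.subset_span (Set.mem_image_of_mem toR (Finset.mem_coe.2 hv)))
      simpa using this
    rw [this, mul_zero]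

theorem laplaceOrthant (hS : SpanT) (hW : WallT) (hB : BdryT) (_hp : IdxPos) (hI : IdxWall)
    (hI' : IdxBdry) : LaplaceOrthant := by
  classical
  intro n T R w
  induction hr : R.card generalizing R with
  | zero =>
    intro _ _
    have hR : R = ∅ := Finset.card_eq_zero.1 hr
    subst hR
    have h1 : T.mxT ∅ = {∅} := by
      ext τ
      rw [mem_mxT_h97, Finset.mem_singleton]
      constructor
      · rintro ⟨-, h2, -⟩
        exact Finset.card_eq_zero.1 (by simpa using h2)
      · rintro rfl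
        exact ⟨(Fan.mem_faces T).1 T.faces_empty, rfl, fun u hu => absurd hu (Finset.notMem_empty _)⟩
    rw [h1, Finset.sum_singleton, idx_empty']
    simp
  | succ r ih =>
    intro h1 h2
    obtain ⟨i, hi⟩ : R.Nonempty := by
      rw [← Finset.card_pos]; omega
    have hcard : (R.erase i).card = r := by
      rw [Finset.card_erase_of_mem hi]; omega
    -- induction hypothesis
    have IH := ih (R.erase i) hcard (by
      intro ρ hρ a ha
      obtain ⟨u, hu, hins, -, -⟩ := hB n T R i ρ hi hρ
      exact h1 _ hins a (Finset.mem_insert_of_mem ha)) (fun j hj => h2 j (Finset.mem_of_mem_erase hj))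
    -- the coordinates of the i-th basis vector
    set e : Fin n → ℝ := Pi.single i 1 with he
    have hesupp : ∀ j, j ∉ R → e j = 0 := by
      intro j hj
      rw [he, Pi.single_apply, if_neg]
      rintro rfl
      exact hj hi
    have hw : w ⬝ᵥ e = w i := by simp [he]
    have hspan : ∀ ε ∈ T.mxT R, e = ∑ a ∈ ε, crd ε e a • toR a :=
      fun ε hε => (hS n T R ε hε e hesupp).2
    have hwi : ∀ ε ∈ T.mxT R, w i = ∑ a ∈ ε, crd ε e a * (w ⬝ᵥ toR a) := by
      intro ε hε
      rw [← hw]
      conv_lhs => rw [hspan ε hε, dotProduct_sum]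
      refine Finset.sum_congr rfl fun a _ => ?_
      rw [dotProduct_smul, smul_eq_mul]
    -- the set of walls
    set W : Finset (Finset (Fin n → ℤ)) :=
      T.faces.filter (fun ρ => ρ.card + 1 = R.card ∧ ∀ u ∈ ρ, ∀ j, j ∉ R → u j = 0) with hWdef
    have memW : ∀ ρ, ρ ∈ W ↔ T.IsFace ρ ∧ ρ.card + 1 = R.card ∧
        ∀ u ∈ ρ, ∀ j, j ∉ R → u j = 0 := by
      intro ρ
      rw [hWdef, Finset.mem_filter, Fan.mem_faces]
    set V : Finset (Fin n → ℤ) → Finset (Fin n → ℤ) := fun ρ =>
      T.vert.filter (fun u => u ∉ ρ ∧ insert u ρ ∈ T.mxT R) with hVdef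
    have memV : ∀ ρ u, u ∈ V ρ ↔ u ∉ ρ ∧ insert u ρ ∈ T.mxT R := by
      intro ρ u
      rw [hVdef]
      simp only [Finset.mem_filter]
      refine ⟨fun h => h.2, fun h => ⟨?_, h⟩⟩
      exact Fan.IsFace.subset_vert T ((mem_mxT_h97 T R _).1 h.2).1 (Finset.mem_insert_self _ _)
    -- first step: split into walls
    have step1 : w i * ∑ ε ∈ T.mxT R, (idx (ε : Set (Fin n → ℤ)) : ℝ) / ∏ a ∈ ε, (w ⬝ᵥ toR a)
        = ∑ ρ ∈ W, (∑ u ∈ V ρ, crd (insert u ρ) e u *
            (idx ((insert u ρ : Finset (Fin n → ℤ)) : Set (Fin n → ℤ)) : ℝ)) /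
            ∏ b ∈ ρ, (w ⬝ᵥ toR b) := by
      rw [Finset.mul_sum]
      have e1 : ∀ ε ∈ T.mxT R, w i * ((idx (ε : Set (Fin n → ℤ)) : ℝ) / ∏ a ∈ ε, (w ⬝ᵥ toR a))
          = ∑ a ∈ ε, crd ε e a * (idx (ε : Set (Fin n → ℤ)) : ℝ) /
              ∏ b ∈ ε.erase a, (w ⬝ᵥ toR b) := by
        intro ε hε
        conv_lhs => rw [hwi ε hε]
        rw [Finset.sum_mul]
        refine Finset.sum_congr rfl fun a ha => ?_
        rw [← Finset.mul_prod_erase ε _ ha]
        have h3 : w ⬝ᵥ toR a ≠ 0 := h1 ε hε a ha
        have h4 : ∏ b ∈ ε.erase a, (w ⬝ᵥ toR b) ≠ 0 :=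
          Finset.prod_ne_zero_iff.2 fun b hb => h1 ε hε b (Finset.mem_of_mem_erase hb)
        field_simp
      rw [Finset.sum_congr rfl e1]
      simp only [Finset.sum_div]
      rw [Finset.sum_sigma', Finset.sum_sigma']
      refine Finset.sum_bij' (fun x _ => ⟨x.1.erase x.2, x.2⟩) (fun y _ => ⟨insert y.2 y.1, y.2⟩)
        ?_ ?_ ?_ ?_ ?_
      · rintro ⟨ε, a⟩ hx
        simp only [Finset.mem_sigma] at hx ⊢
        obtain ⟨hε, ha⟩ := hx
        have hε' := (mem_mxT_h97 T R ε).1 hε
        refine ⟨(memW _).2 ⟨Fan.IsFace.subset T hε'.1 (Finset.erase_subset _ _), ?_, ?_⟩, (memV _ _).2 ⟨?_, ?_⟩⟩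
        · rw [Finset.card_erase_of_mem ha, ← hε'.2.1]
          have : 0 < ε.card := Finset.card_pos.2 ⟨a, ha⟩
          omega
        · intro u hu j hj
          exact hε'.2.2 u (Finset.mem_of_mem_erase hu) j hj
        · exact Finset.notMem_erase _ _
        · rw [Finset.insert_erase ha]; exact hε
      · rintro ⟨ρ, u⟩ hy
        simp only [Finset.mem_sigma] at hy ⊢
        exact ⟨((memV _ _).1 hy.2).2, Finset.mem_insert_self _ _⟩
      · rintro ⟨ε, a⟩ hx
        simp only [Finset.mem_sigma] at hx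
        simp only [Finset.insert_erase hx.2]
      · rintro ⟨ρ, u⟩ hy
        simp only [Finset.mem_sigma] at hy
        simp only [Finset.erase_insert ((memV _ _).1 hy.2).1]
      · rintro ⟨ε, a⟩ hx
        simp only [Finset.mem_sigma] at hx
        simp only [Finset.insert_erase hx.2]
    -- second step: the brackets
    have boundary : ∀ j ∈ R, ∀ ρ ∈ T.mxT (R.erase j),
        ∑ u ∈ V ρ, crd (insert u ρ) e u *
            (idx ((insert u ρ : Finset (Fin n → ℤ)) : Set (Fin n → ℤ)) : ℝ)
          = if i = j then (idx (ρ : Set (Fin n → ℤ)) : ℝ) else 0 := by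
      intro j hj ρ hρ
      obtain ⟨u, hu, hins, hpos, huniq⟩ := hB n T R j ρ hj hρ
      have hV : V ρ = {u} := by
        ext v
        rw [memV, Finset.mem_singleton]
        constructor
        · rintro ⟨hv1, hv2⟩
          have h3 := huniq _ hv2 (Finset.subset_insert _ _)
          have h4 : v ∈ insert u ρ := by rw [← h3]; exact Finset.mem_insert_self _ _
          rcases Finset.mem_insert.1 h4 with h5 | h5
          · exact h5
          · exact absurd h5 hv1
        · rintro rfl
          exact ⟨hu, hins⟩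
      rw [hV, Finset.sum_singleton]
      have hρ' := (mem_mxT_h97 T _ ρ).1 hρ
      have hins' := (mem_mxT_h97 T R _).1 hins
      have hidx := hI' n R j ρ u hj (by
        rw [hρ'.2.1, Finset.card_erase_of_mem hj]
        have : 0 < R.card := Finset.card_pos.2 ⟨j, hj⟩
        omega) hu (Fan.IsFace.indep T hins'.1) hρ'.2.2 (fun l hl => hins'.2.2 u (Finset.mem_insert_self _ _) l hl)
      have hidx' : (idx ((insert u ρ : Finset (Fin n → ℤ)) : Set (Fin n → ℤ)) : ℝ)
          = (idx (ρ : Set (Fin n → ℤ)) : ℝ) * (u j : ℝ) := by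
        have h3 := congrArg (Int.cast : ℤ → ℝ) hidx
        rw [abs_of_pos hpos, Int.cast_mul, Int.cast_natCast, Int.cast_natCast] at h3
        exact h3
      have hej : e j = crd (insert u ρ) e u * (u j : ℝ) := by
        conv_lhs => rw [hspan _ hins]
        rw [Finset.sum_apply, Finset.sum_insert hu]
        have : ∑ v ∈ ρ, (crd (insert u ρ) e v • toR v) j = 0 := by
          refine Finset.sum_eq_zero fun v hv => ?_
          have : v j = 0 := hρ'.2.2 v hv j (Finset.notMem_erase _ _)
          simp [this]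
        rw [this, add_zero]
        simp
      rw [hidx', mul_left_comm, ← hej, he, Pi.single_apply]
      by_cases hij : i = j
      · subst hij; simp
      · rw [if_neg (fun h => hij h.symm), if_neg hij, mul_zero]
    have wall : ∀ ρ ∈ W, cs ρ = R →
        ∑ u ∈ V ρ, crd (insert u ρ) e u *
            (idx ((insert u ρ : Finset (Fin n → ℤ)) : Set (Fin n → ℤ)) : ℝ) = 0 := by
      intro ρ hρ hcs
      have hρ' := (memW ρ).1 hρ
      obtain ⟨u, u', huu, hu, hu', hins, hins', huniq, a, b, c, ha, hb, hab⟩ :=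
        hW n T R ρ hρ'.1 hρ'.2.1 hcs
      have hV : V ρ = {u, u'} := by
        ext v
        rw [memV, Finset.mem_insert, Finset.mem_singleton]
        constructor
        · rintro ⟨hv1, hv2⟩
          rcases huniq _ hv2 (Finset.subset_insert _ _) with h3 | h3
          · left
            have h4 : v ∈ insert u ρ := by rw [← h3]; exact Finset.mem_insert_self _ _
            rcases Finset.mem_insert.1 h4 with h5 | h5
            · exact h5
            · exact absurd h5 hv1
          · right
            have h4 : v ∈ insert u' ρ := by rw [← h3]; exact Finset.mem_insert_self _ _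
            rcases Finset.mem_insert.1 h4 with h5 | h5
            · exact h5
            · exact absurd h5 hv1
        · rintro (rfl | rfl)
          · exact ⟨hu, hins⟩
          · exact ⟨hu', hins'⟩
      rw [hV, Finset.sum_pair huu]
      have i1 := Fan.IsFace.indep T ((mem_mxT_h97 T R _).1 hins).1
      have i2 := Fan.IsFace.indep T ((mem_mxT_h97 T R _).1 hins').1
      obtain ⟨k, hk1, hk2⟩ := exists_form hu i1
      have key := hI n ρ u u' hu hu' i1 i2 a b c ha hb hab k hk2
      rw [hk1, one_mul] at key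
      have ev : ∀ v, v ∉ ρ → insert v ρ ∈ T.mxT R →
          k ⬝ᵥ e = crd (insert v ρ) e v * (k ⬝ᵥ toR v) := by
        intro v hv hvm
        conv_lhs => rw [hspan _ hvm, dotProduct_sum, Finset.sum_insert hv]
        have : ∑ x ∈ ρ, k ⬝ᵥ (crd (insert v ρ) e x • toR x) = 0 := by
          refine Finset.sum_eq_zero fun x hx => ?_
          rw [dotProduct_smul, hk2 x hx, smul_zero]
        rw [this, add_zero, dotProduct_smul, smul_eq_mul]
      have e1 := ev u hu hins
      have e2 := ev u' hu' hins'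
      rw [hk1, mul_one] at e1
      rw [← e1, e2]
      linear_combination (crd (insert u' ρ) e u') * key
    have bracket : ∀ ρ ∈ W, ∑ u ∈ V ρ, crd (insert u ρ) e u *
            (idx ((insert u ρ : Finset (Fin n → ℤ)) : Set (Fin n → ℤ)) : ℝ)
          = if ρ ∈ T.mxT (R.erase i) then (idx (ρ : Set (Fin n → ℤ)) : ℝ) else 0 := by
      intro ρ hρ
      by_cases hm : ρ ∈ T.mxT (R.erase i)
      · rw [if_pos hm, boundary i hi ρ hm, if_pos rfl]
      · rw [if_neg hm]
        have hρ' := (memW ρ).1 hρ
        by_cases hcs : cs ρ = R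
        · exact wall ρ hρ hcs
        · have hsub : cs ρ ⊆ R := by
            intro j hj
            unfold cs at hj
            rw [Finset.mem_filter] at hj
            obtain ⟨-, u, hu, huj⟩ := hj
            by_contra hjR
            exact huj (hρ'.2.2 u hu j hjR)
          obtain ⟨j, hj1, hj2⟩ : ∃ j ∈ R, j ∉ cs ρ := by
            by_contra hcon
            push Not at hcon
            exact hcs (Finset.Subset.antisymm hsub hcon)
          have hzero : ∀ j, j ∉ cs ρ → ∀ u ∈ ρ, u j = 0 := by
            intro j hj u hu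
            unfold cs at hj
            rw [Finset.mem_filter] at hj
            by_contra hne
            exact hj ⟨Finset.mem_univ _, u, hu, hne⟩
          have hmem : ∀ j ∈ R, j ∉ cs ρ → ρ ∈ T.mxT (R.erase j) := by
            intro j hj1 hj2
            rw [mem_mxT_h97]
            refine ⟨hρ'.1, ?_, ?_⟩
            · rw [Finset.card_erase_of_mem hj1]; omega
            · intro u hu l hl
              by_cases hlj : l = j
              · subst hlj; exact hzero _ hj2 u hu
              · refine hρ'.2.2 u hu l fun hlR => hl (Finset.mem_erase.2 ⟨hlj, hlR⟩)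
          have hij : i ≠ j := by
            rintro rfl
            exact hm (hmem i hi hj2)
          rw [boundary j hj1 ρ (hmem j hj1 hj2), if_neg hij]
    have step2 : w i * ∑ ε ∈ T.mxT R, (idx (ε : Set (Fin n → ℤ)) : ℝ) / ∏ a ∈ ε, (w ⬝ᵥ toR a)
        = ∏ j ∈ R.erase i, (w j)⁻¹ := by
      rw [step1, ← IH]
      have e1 : ∀ ρ ∈ W, (∑ u ∈ V ρ, crd (insert u ρ) e u *
            (idx ((insert u ρ : Finset (Fin n → ℤ)) : Set (Fin n → ℤ)) : ℝ)) /
            ∏ b ∈ ρ, (w ⬝ᵥ toR b) = if ρ ∈ T.mxT (R.erase i) then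
              (idx (ρ : Set (Fin n → ℤ)) : ℝ) / ∏ b ∈ ρ, (w ⬝ᵥ toR b) else 0 := by
        intro ρ hρ
        rw [bracket ρ hρ]
        split_ifs
        · rfl
        · simp
      rw [Finset.sum_congr rfl e1, ← Finset.sum_filter]
      refine Finset.sum_congr ?_ fun _ _ => rfl
      ext ρ
      rw [Finset.mem_filter, memW]
      constructor
      · exact fun h => h.2
      · intro h
        have h' := (mem_mxT_h97 T _ ρ).1 h
        refine ⟨⟨h'.1, ?_, ?_⟩, h⟩
        · rw [h'.2.1, Finset.card_erase_of_mem hi]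
          have : 0 < R.card := Finset.card_pos.2 ⟨i, hi⟩
          omega
        · intro u hu j hj
          exact h'.2.2 u hu j fun hj' => hj (Finset.mem_of_mem_erase hj')
    have hwi0 : w i ≠ 0 := h2 i hi
    rw [← Finset.mul_prod_erase R _ hi, ← step2, ← mul_assoc, inv_mul_cancel₀ hwi0, one_mul]

end Mono
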